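import Pool.Agent.Y40.LN.Core

/-!
# The Lindelöf number and embeddings of function spaces

For every infinite cardinal `κ` (the cardinality of `K`): if the Lindelöf number of `X` is at most
`κ`, `Y` is completely regular, `M` is a metric space and some continuous map
`T : C_p(Y,[0,1]) → C_p(X,M)` has an inverse which is continuous at the single point `T 0`, then
the Lindelöf number of `Y` is at most `κ`. No linearity is assumed, and no injectivity away from
`0`; the functions on `Y` are bounded and the ones on `X` take values in any metric space. The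
questions are about the case `κ = ℵ₀`, `M = ℝ` and embeddings of all of `C_p(Y)`.
-/

set_option autoImplicit false

open Set Topology

namespace Pool.Agent.Results.MP_7f09f8_gt.LindelofNumber

open Pool.Agent.Y40.LN

universe u v w z

theorem lindelofNumberLE_nat (X : Type u) [TopologicalSpace X] :
    LindelofNumberLE ℕ X ↔ LindelofSpace X := by
  constructor
  · intro h
    refine ⟨isLindelof_of_countable_subcover ?_⟩
    intro ι U hU hcov
    have hc : ⋃₀ (Set.range U) = (Set.univ : Set X) := by
      rw [Set.sUnion_range]
      exact Set.univ_subset_iff.1 hcov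
    obtain ⟨𝒱, h𝒱, ⟨e⟩, hc'⟩ := h (Set.range U) (by rintro _ ⟨i, rfl⟩; exact hU i) hc
    have hch : ∀ V : 𝒱, ∃ i, U i = V := fun V => h𝒱 V.2
    choose c hcc using hch
    have : Countable 𝒱 := e.injective.countable
    refine ⟨Set.range c, Set.countable_range c, ?_⟩
    intro x _
    have hx : x ∈ ⋃₀ 𝒱 := by rw [hc']; exact Set.mem_univ x
    obtain ⟨V, hV, hxV⟩ := hx
    rw [Set.mem_iUnion₂]
    exact ⟨c ⟨V, hV⟩, Set.mem_range_self _, by rw [hcc]; exact hxV⟩
  · intro h 𝒰 hU hcov
    obtain ⟨t, htc, ht⟩ := (isLindelof_univ (X := X)).elim_countable_subcover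
      (fun U : 𝒰 => U.1) (fun U => hU U.1 U.2) (by
        rw [← Set.sUnion_eq_iUnion, hcov])
    refine ⟨Subtype.val '' t, ?_, (Sm.countable htc).image _, ?_⟩
    · rintro _ ⟨U, -, rfl⟩
      exact U.2
    · rw [Set.eq_univ_iff_forall]
      intro x
      obtain ⟨U, hU', hx⟩ := Set.mem_iUnion₂.1 (ht (Set.mem_univ x))
      exact ⟨U.1, Set.mem_image_of_mem _ hU', hx⟩

/-- **Theorem.** (1) Let `K` be an infinite set, let the Lindelöf number of the space `X` be at most
`|K|`, let `Y` be completely regular and `M` a metric space. If there is a continuous map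
`T : C_p(Y,[0,1]) → C_p(X,M)` whose inverse is continuous at the point `T 0` (the neighbourhood
filter of `0` contains, hence equals, the preimage of the one of `T 0`), then the Lindelöf number
of `Y` is at most `|K|`. (2) The Lindelöf number is at most `|ℕ|` exactly for the Lindelöf spaces.
(3) In particular, if `X` is Lindelöf, `Y` completely regular, and `C_p(Y)` is homeomorphic to a
subspace of `C_p(X)`, then `Y` is Lindelöf. -/
theorem result :
    (∀ (K : Type w) [Infinite K] (X : Type u) (Y : Type v) (M : Type z) [TopologicalSpace X]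
      [TopologicalSpace Y] [CompletelyRegularSpace Y] [PseudoMetricSpace M]
      (T : CpUnit Y → CpTo X M), Continuous T →
      Filter.comap T (𝓝 (T (zeroFun Y))) ≤ 𝓝 (zeroFun Y) →
      LindelofNumberLE K X → LindelofNumberLE K Y) ∧
    (∀ (X : Type u) [TopologicalSpace X], LindelofNumberLE ℕ X ↔ LindelofSpace X) ∧
    (∀ (X : Type u) (Y : Type v) [TopologicalSpace X] [TopologicalSpace Y]
      [CompletelyRegularSpace Y] [LindelofSpace X]
      (T : {f : Y → ℝ // Continuous f} → {f : X → ℝ // Continuous f}),
      IsEmbedding T → LindelofSpace Y) := by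
  refine ⟨fun K _ X Y M _ _ _ _ T hT hT0 hX => main K hX T hT hT0,
    fun X _ => lindelofNumberLE_nat X, fun X Y _ _ _ _ T hT => ?_⟩
  rw [← lindelofNumberLE_nat]
  let S : CpUnit Y → {f : Y → ℝ // Continuous f} := fun f => ⟨f.1, f.2.1⟩
  have hS : IsEmbedding S :=
    IsEmbedding.of_comp (Continuous.subtype_mk continuous_subtype_val _) continuous_subtype_val
      IsEmbedding.subtypeVal
  have hTS : IsEmbedding (T ∘ S) := hT.comp hS
  refine main (M := ℝ) ℕ ((lindelofNumberLE_nat X).2 inferInstance) (T ∘ S) hTS.continuous ?_
  rw [hTS.nhds_eq_comap]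

end Pool.Agent.Results.MP_7f09f8_gt.LindelofNumber
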